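import Pool.Agent.RCM.StmtsA
import Pool.Agent.Helper35_RCM.Base

/-!
# RCA GLO: lower bound for `Gn`
-/

set_option autoImplicit false

namespace Pool.Agent.RCM.H83

open Set

universe u

theorem glo : GloStmt.{u} := by
  intro E K _ _ M N κ s t P X T a z hC hM hS hU ha hz
  obtain ⟨c, hcX, hcT⟩ := hU
  obtain ⟨h1, -⟩ := H35.rmv' E K M N κ s t P X T c z hC hM hS hcX hcT hz
  refine h1.trans ?_
  have hinj : InjOn κ {y ∈ T | ∃ x, κ x = c ∧ x ∉ M.closure (T ∪ P) ∧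
      x ∉ N.closure (T \ {y})} := fun x hx y hy h => hS.ri.inj hx.1 hy.1 h
  rw [← Set.ncard_image_of_injOn hinj]
  refine Set.ncard_le_ncard ?_ (Set.toFinite _)
  rintro _ ⟨y, ⟨hy, x, hx, hxM, hxN⟩, rfl⟩
  refine ⟨hS.col y hy, insert x (T \ {y}), ?_, ?_⟩
  · obtain ⟨b, rfl⟩ : ∃ b, a = b + 1 := ⟨a - 1, by omega⟩
    refine Rn.step b T T _ (Rn.rfl b T) ⟨x, y, hy, ?_, ?_, hxM, hxN, rfl⟩
    · rw [hx]
      exact hcT
    · rw [hx]
      exact hcX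
  · rintro ⟨w, hw, hwy⟩
    rcases Set.mem_insert_iff.1 hw with rfl | hw
    · exact hcT ⟨y, hy, by rw [← hwy, hx]⟩
    · exact hw.2 (hS.ri.inj hw.1 hy hwy)

end Pool.Agent.RCM.H83
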