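import Pool.Agent.RCM.StmtsA

/-!
# RCA GNB: facts on `Gn`
-/

set_option autoImplicit false

namespace Pool.Agent.RCM.H83

open Set

universe u

theorem gnb (hR : RnbStmt.{u}) (hO : OpbStmt.{u}) : GnbStmt.{u} := by
  intro E K _ _ M N κ X
  obtain ⟨r1, r2, r3, r4, -⟩ := hR E K M N κ X
  obtain ⟨-, -, o3, -⟩ := hO E K M N κ X
  refine ⟨?_, ?_, ?_⟩
  · rintro P a b T hab c ⟨hc, T', hT', hcT⟩
    exact ⟨hc, T', r1 P a b T T' hab hT', hcT⟩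
  · rintro k m T P T' P' hop c ⟨hc, T'', hT'', hcT⟩
    obtain ⟨hP, -, hk⟩ := o3 k T P T' P' hop
    exact ⟨hc, T'', r2 P k m T T' T'' hk (r3 P P' m T' T'' hP hT''), hcT⟩
  · rintro P a T c ⟨hc, T', hT', hcT⟩
    exact ⟨hc, T', r4 P a T T' hT', hcT⟩

end Pool.Agent.RCM.H83
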